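import Pool.Agent.H1.CA.TarP

/-!
# Small subsets of `μ i` in `B_β` are bounded
-/

set_option linter.unusedVariables false

open Ordinal Order Set
open scoped ZFSet

namespace CAA

open SF

theorem pf_CI (hCF : T_CF) (hPJ : T_PJ) : T_CI := by
  intro D hD G hG β hβ i hi x hx hs hxμ
  rcases hs with h | ⟨f, hf, ho⟩
  · subst h
    exact ⟨D.γ i, hD.sz.γμ i hi, fun y hy => absurd hy (ZFSet.notMem_empty y)⟩
  · obtain ⟨-, -, -, -, hE, -⟩ := (hCF D hD G hG).1 β hβ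
    have hfun : ZFSet.IsFunc (LA ∅ (D.γ i)) (D.μ i).toZFSet f := by
      refine ⟨fun z hz => ?_, fun z hz => ho.1.2 z hz⟩
      obtain ⟨a, ha, b, hb, rfl⟩ := ZFSet.mem_prod.1 (ho.1.1 hz)
      exact ZFSet.pair_mem_prod.2 ⟨ha, hxμ hb⟩
    obtain ⟨δ, hδ, hb⟩ := hPJ D hD G hG i hi f (hE f hf) hfun
    refine ⟨δ, hδ, fun y hy => ?_⟩
    obtain ⟨a, ha, hay⟩ := ho.2 y hy
    have h1 := hb a ha
    rw [app_eq (svl_of_isFunc hfun) hay] at h1
    exact h1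

end CAA
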