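import Pool.Agent.H9.CA.Tool

/-!
# An ordinal of the size of a given set
-/

open Ordinal Order Set
open scoped ZFSet

namespace CAA

open SF

namespace X74

theorem tm_A : Tm ZFm (fun _ v => (v 0).sep fun x => ∀ y ∈ x, app (v 1) y ≠ app (v 1) x) := by
  have h1 : Dfb ZFm (fun _ v => app (v 3) (v 0) ≠ app (v 3) (v 1)) :=
    (Dfb.eq (Tm.app (Tm.var 3) (Tm.var 0)) (Tm.app (Tm.var 3) (Tm.var 1))).not
  have h2 : Dfb ZFm (fun _ v => ∀ y ∈ v 0, app (v 2) y ≠ app (v 2) (v 0)) :=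
    (Dfb.ball ktr_zfm (Tm.var 0) h1).congr fun M k v hv => Iff.rfl
  exact (Tm.sep h2 (Tm.var 0)).congr fun M k v hv => rfl

theorem tm_f (hDJ : T_DJ) : Tm ZFm (fun _ v => imS (v 0) fun x =>
    ZFSet.pair (clp (v 0) x) (app (v 1) x)) := by
  have h1 : Tm ZFm (fun _ v => ZFSet.pair (clp (v 1) (v 0)) (app (v 2) (v 0))) :=
    Tm.pair (Tm.at2 (F := fun _ x y => clp x y) hDJ.2 (Tm.var 1) (Tm.var 0))
      (Tm.app (Tm.var 2) (Tm.var 0))
  exact (Tm.image (Tm.var 0) h1).congr fun M k v hv => rfl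

theorem tm_g (hDJ : T_DJ) : Tm ZFm (fun _ v => imS (v 0) fun x =>
    ZFSet.pair (app (v 1) x) (clp (v 0) x)) := by
  have h1 : Tm ZFm (fun _ v => ZFSet.pair (app (v 2) (v 0)) (clp (v 1) (v 0))) :=
    Tm.pair (Tm.app (Tm.var 2) (Tm.var 0))
      (Tm.at2 (F := fun _ x y => clp x y) hDJ.2 (Tm.var 1) (Tm.var 0))
  exact (Tm.image (Tm.var 0) h1).congr fun M k v hv => rfl

theorem clp_tr (hDJ : T_DJ) {A x : V} (h : ∀ z ∈ x, z ⊆ x) : (clp A x).IsTransitive := by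
  intro u hu w hw
  obtain ⟨z, hz, hzA, rfl⟩ := (hDJ.1 A x u).1 hu
  obtain ⟨t, ht, htA, rfl⟩ := (hDJ.1 A z w).1 hw
  exact (hDJ.1 A x _).2 ⟨t, h z hz ht, htA, rfl⟩

end X74

open X74 in
theorem pf_DI (hDJ : T_DJ) : T_DI := by
  intro M k C hC _
  have kz : ZFm M := k.toZFm
  obtain ⟨α, h, hh, hfun, honto⟩ := k.wo C hC
  have hsv : Svl h := svl_of_isFunc hfun
  have hαd : dm h = α.toZFSet := by
    ext x
    rw [mem_dm]
    constructor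
    · rintro ⟨y, hy⟩
      exact (ZFSet.pair_mem_prod.1 (hfun.1 hy)).1
    · intro hx
      obtain ⟨y, hy, -⟩ := hfun.2 x hx
      exact ⟨y, hy⟩
  have hα : M α.toZFSet := by
    rw [← hαd]
    exact (Tm.dm (Tm.var 0)).1 M kz (fun _ => h) fun _ => hh
  set A : V := (α.toZFSet).sep fun x => ∀ y ∈ x, app h y ≠ app h x with hAd
  have hA : M A := tm_A.1 M kz (cons α.toZFSet (cons h fun _ => h))
    (In.cons (In.cons (fun _ => hh) hh) hα)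
  have hAα : ∀ x ∈ A, x ∈ α.toZFSet := fun x hx => (ZFSet.mem_sep.1 hx).1
  have hAo : ∀ x ∈ A, ∃ ξ : Ordinal.{0}, ξ < α ∧ x = ξ.toZFSet := fun x hx => by
    obtain ⟨ξ, hξ, e⟩ := Ordinal.mem_toZFSet_iff.1 (hAα x hx)
    exact ⟨ξ, hξ, e.symm⟩
  set f : V := imS A fun x => ZFSet.pair (clp A x) (app h x) with hfd
  set g : V := imS A fun x => ZFSet.pair (app h x) (clp A x) with hgd
  have hv : In M (cons A (cons h fun _ => h)) := In.cons (In.cons (fun _ => hh) hh) hA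
  have hf : M f := (tm_f hDJ).1 M kz _ hv
  have hg : M g := (tm_g hDJ).1 M kz _ hv
  -- the range of the collapse is an ordinal
  have htrα : ∀ z ∈ α.toZFSet, z ⊆ α.toZFSet := fun z hz w hw =>
    (ZFSet.isOrdinal_toZFSet α).isTransitive z hz hw
  have hO : IsOrd (clp A α.toZFSet) := by
    rw [isOrd_iff]
    refine ⟨clp_tr hDJ htrα, ?_⟩
    intro u hu
    obtain ⟨z, hz, -, rfl⟩ := (hDJ.1 A _ u).1 hu
    apply clp_tr hDJ
    obtain ⟨ξ, -, rfl⟩ := Ordinal.mem_toZFSet_iff.1 hz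
    exact fun z hz w hw => (ZFSet.isOrdinal_toZFSet ξ).isTransitive z hz hw
  obtain ⟨ρ, hρ⟩ := hO
  have hmem : ∀ x ∈ A, clp A x ∈ ρ.toZFSet := by
    intro x hx
    rw [← hρ]
    exact (hDJ.1 A _ _).2 ⟨x, hAα x hx, hx, rfl⟩
  have hex : ∀ z ∈ ρ.toZFSet, ∃ x ∈ A, z = clp A x := by
    intro z hz
    rw [← hρ] at hz
    obtain ⟨x, -, hx, e⟩ := (hDJ.1 A _ _).1 hz
    exact ⟨x, hx, e⟩
  -- trichotomy
  have htri : ∀ x ∈ A, ∀ y ∈ A, x ∈ y ∨ x = y ∨ y ∈ x := by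
    intro x hx y hy
    obtain ⟨ξ, -, rfl⟩ := hAo x hx
    obtain ⟨η, -, rfl⟩ := hAo y hy
    rcases lt_trichotomy ξ η with h | h | h
    · exact Or.inl (Ordinal.toZFSet_mem_toZFSet_iff.2 h)
    · exact Or.inr (Or.inl (by rw [h]))
    · exact Or.inr (Or.inr (Ordinal.toZFSet_mem_toZFSet_iff.2 h))
  have hinj : ∀ x ∈ A, ∀ y ∈ A, clp A x = clp A y → x = y := by
    intro x hx y hy he
    rcases htri x hx y hy with h | h | h
    · exfalso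
      have : clp A x ∈ clp A y := (hDJ.1 A _ _).2 ⟨x, h, hx, rfl⟩
      rw [he] at this
      exact ZFSet.mem_irrefl _ this
    · exact h
    · exfalso
      have : clp A y ∈ clp A x := (hDJ.1 A _ _).2 ⟨y, h, hy, rfl⟩
      rw [he] at this
      exact ZFSet.mem_irrefl _ this
  have hinj2 : ∀ x ∈ A, ∀ y ∈ A, app h x = app h y → x = y := by
    intro x hx y hy he
    rcases htri x hx y hy with h | h | h
    · exact absurd he ((ZFSet.mem_sep.1 hy).2 x h)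
    · exact h
    · exact absurd he.symm ((ZFSet.mem_sep.1 hx).2 y h)
  have hsurj : ∀ c ∈ C, ∃ x ∈ A, app h x = c := by
    intro c hc
    obtain ⟨a, ha, hac⟩ := honto c hc
    obtain ⟨ξ₀, hξ₀, rfl⟩ := Ordinal.mem_toZFSet_iff.1 ha
    have hne : {ξ : Ordinal.{0} | ξ < α ∧ ZFSet.pair ξ.toZFSet c ∈ h}.Nonempty := ⟨ξ₀, hξ₀, hac⟩
    have hmin := WellFounded.min_mem (r := ((· < ·) : Ordinal.{0} → Ordinal.{0} → Prop))
      Ordinal.lt_wf _ hne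
    set ξ := WellFounded.min (r := ((· < ·) : Ordinal.{0} → Ordinal.{0} → Prop))
      Ordinal.lt_wf _ hne with hξd
    have he : app h ξ.toZFSet = c := app_eq hsv hmin.2
    refine ⟨ξ.toZFSet, ZFSet.mem_sep.2 ⟨Ordinal.toZFSet_mem_toZFSet_iff.2 hmin.1, ?_⟩, he⟩
    intro y hy hye
    obtain ⟨η, hη, rfl⟩ := Ordinal.mem_toZFSet_iff.1 hy
    have hηα : η < α := hη.trans hmin.1
    have hin : η ∈ {ξ : Ordinal.{0} | ξ < α ∧ ZFSet.pair ξ.toZFSet c ∈ h} := by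
      refine ⟨hηα, ?_⟩
      rw [← he, ← hye]
      exact pair_app_mem hfun (Ordinal.toZFSet_mem_toZFSet_iff.2 hηα)
    exact WellFounded.not_lt_min Ordinal.lt_wf _ hin hη
  refine ⟨ρ, f, g, hf, hg, ⟨⟨?_, ?_⟩, ?_⟩, ⟨?_, ?_⟩, ?_⟩
  · intro z hz
    obtain ⟨x, hx, rfl⟩ := mem_imS.1 hz
    exact ZFSet.pair_mem_prod.2 ⟨hmem x hx, app_mem hfun (hAα x hx)⟩
  · intro z hz
    obtain ⟨x, hx, rfl⟩ := hex z hz
    refine ⟨app h x, mem_imS.2 ⟨x, hx, rfl⟩, ?_⟩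
    intro w hw
    obtain ⟨y, hy, e⟩ := mem_imS.1 hw
    obtain ⟨e1, e2⟩ := ZFSet.pair_inj.1 e
    rw [← e2, hinj y hy x hx e1]
  · intro c hc
    obtain ⟨x, hx, rfl⟩ := hsurj c hc
    exact ⟨clp A x, hmem x hx, mem_imS.2 ⟨x, hx, rfl⟩⟩
  · intro z hz
    obtain ⟨x, hx, rfl⟩ := mem_imS.1 hz
    exact ZFSet.pair_mem_prod.2 ⟨app_mem hfun (hAα x hx), hmem x hx⟩
  · intro c hc
    obtain ⟨x, hx, rfl⟩ := hsurj c hc
    refine ⟨clp A x, mem_imS.2 ⟨x, hx, rfl⟩, ?_⟩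
    intro w hw
    obtain ⟨y, hy, e⟩ := mem_imS.1 hw
    obtain ⟨e1, e2⟩ := ZFSet.pair_inj.1 e
    rw [← e2, hinj2 y hy x hx e1]
  · intro z hz
    obtain ⟨x, hx, rfl⟩ := hex z hz
    exact ⟨app h x, app_mem hfun (hAα x hx), mem_imS.2 ⟨x, hx, rfl⟩⟩

end CAA
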