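import Pool.Agent.H1.CA.TarP

/-!
# Modification of a generic filter at one coordinate
-/

set_option linter.unusedVariables false
set_option linter.unusedSectionVars false

open Ordinal Order Set
open scoped ZFSet

namespace CAA

open SF

namespace PM74

/-- replace the initial segment `a` by `b` -/
noncomputable def sw (a b s : V) : V := b ∪ (s \ a)

/-- the modified filter -/
noncomputable def TG (c κ k X a b : V) : V := c.sep fun p =>
  (∀ j ∈ κ, j ≠ k → app p j ∈ fib X j) ∧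
    ∃ s ∈ fib X k, Ee s a ∧ Ee (b ∪ (s \ a)) (app p k)

/-- the modified fiber -/
noncomputable def TF (L m e Fk a b : V) : V := L.sep fun q =>
  IsQ m e q ∧ ∃ s ∈ Fk, Ee s a ∧ Ee (b ∪ (s \ a)) q

/-- the dense set -/
noncomputable def Wd (c k a b r W : V) : V := c.sep fun p =>
  (Ee (app p k) a ∧ ∃ w ∈ W, ZFSet.pair (upd p k (b ∪ (app p k \ a))) w ∈ r) ∨
    (¬ Ee (app p k) a ∧ ¬ Ee a (app p k))

theorem tm_TG (hPC : T_PC) :
    Tm ZFm (fun _ v => TG (v 0) (v 1) (v 2) (v 3) (v 4) (v 5)) := by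
  have hfib := hPC.2.2.2.2.2.1
  have hEe := hPC.2.1
  have h1 : Dfb ZFm (fun _ v => v 0 ≠ v 4 → app (v 1) (v 0) ∈ fib (v 5) (v 0)) :=
    (Dfb.eq (Tm.var 0) (Tm.var 4)).not.imp
      (Dfb.mem (Tm.app (Tm.var 1) (Tm.var 0))
        (Tm.at2 (F := fun _ x y => fib x y) hfib (Tm.var 5) (Tm.var 0)))
  have h2 : Dfb ZFm (fun _ v => ∀ j ∈ v 2, j ≠ v 3 → app (v 0) j ∈ fib (v 4) j) :=
    (Dfb.ball ktr_zfm (Tm.var 2) h1).congr fun M k v hv => Iff.rfl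
  have h3 : Dfb ZFm (fun _ v => Ee (v 0) (v 6) ∧ Ee (v 7 ∪ (v 0 \ v 6)) (app (v 1) (v 4))) :=
    (Dfb.at2 (P := fun _ x y => Ee x y) hEe (Tm.var 0) (Tm.var 6)).and
      (Dfb.at2 (P := fun _ x y => Ee x y) hEe
        (Tm.union (Tm.var 7) (Tm.diff (Tm.var 0) (Tm.var 6))) (Tm.app (Tm.var 1) (Tm.var 4)))
  have h4 : Dfb ZFm (fun _ v => ∃ s ∈ fib (v 4) (v 3),
      Ee s (v 5) ∧ Ee (v 6 ∪ (s \ v 5)) (app (v 0) (v 3))) :=
    (Dfb.bex ktr_zfm (Tm.at2 (F := fun _ x y => fib x y) hfib (Tm.var 4) (Tm.var 3)) h3).congr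
      fun M k v hv => Iff.rfl
  exact (Tm.sep (h2.and h4) (Tm.var 0)).congr fun M k v hv => rfl

theorem tm_TF (hPC : T_PC) :
    Tm ZFm (fun _ v => TF (v 0) (v 1) (v 2) (v 3) (v 4) (v 5)) := by
  have hEe := hPC.2.1
  have hQ := hPC.1
  have h3 : Dfb ZFm (fun _ v => Ee (v 0) (v 6) ∧ Ee (v 7 ∪ (v 0 \ v 6)) (v 1)) :=
    (Dfb.at2 (P := fun _ x y => Ee x y) hEe (Tm.var 0) (Tm.var 6)).and
      (Dfb.at2 (P := fun _ x y => Ee x y) hEe
        (Tm.union (Tm.var 7) (Tm.diff (Tm.var 0) (Tm.var 6))) (Tm.var 1))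
  have h4 : Dfb ZFm (fun _ v => ∃ s ∈ v 4, Ee s (v 5) ∧ Ee (v 6 ∪ (s \ v 5)) (v 0)) :=
    (Dfb.bex ktr_zfm (Tm.var 4) h3).congr fun M k v hv => Iff.rfl
  have h5 : Dfb ZFm (fun _ v => IsQ (v 2) (v 3) (v 0)) :=
    Dfb.at3 (P := fun _ x y z => IsQ x y z) hQ (Tm.var 2) (Tm.var 3) (Tm.var 0)
  exact (Tm.sep (h5.and h4) (Tm.var 0)).congr fun M k v hv => rfl

theorem tm_Wd (hPC : T_PC) :
    Tm ZFm (fun _ v => Wd (v 0) (v 1) (v 2) (v 3) (v 4) (v 5)) := by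
  have hEe := hPC.2.1
  have hupd := hPC.2.2.2.2.1
  have h1 : Dfb ZFm (fun _ v => ZFSet.pair (upd (v 1) (v 3) (v 5 ∪ (app (v 1) (v 3) \ v 4))) (v 0)
      ∈ v 6) :=
    Dfb.mem (Tm.pair (Tm.at3 (F := fun _ x y z => upd x y z) hupd (Tm.var 1) (Tm.var 3)
      (Tm.union (Tm.var 5) (Tm.diff (Tm.app (Tm.var 1) (Tm.var 3)) (Tm.var 4)))) (Tm.var 0))
      (Tm.var 6)
  have h2 : Dfb ZFm (fun _ v => ∃ w ∈ v 6,
      ZFSet.pair (upd (v 0) (v 2) (v 4 ∪ (app (v 0) (v 2) \ v 3))) w ∈ v 5) :=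
    (Dfb.bex ktr_zfm (Tm.var 6) h1).congr fun M k v hv => Iff.rfl
  have h3 : Dfb ZFm (fun _ v => Ee (app (v 0) (v 2)) (v 3)) :=
    Dfb.at2 (P := fun _ x y => Ee x y) hEe (Tm.app (Tm.var 0) (Tm.var 2)) (Tm.var 3)
  have h4 : Dfb ZFm (fun _ v => Ee (v 3) (app (v 0) (v 2))) :=
    Dfb.at2 (P := fun _ x y => Ee x y) hEe (Tm.var 3) (Tm.app (Tm.var 0) (Tm.var 2))
  exact (Tm.sep ((h3.and h2).or (h3.not.and h4.not)) (Tm.var 0)).congr fun M k v hv => rfl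

/-- the data of a switch -/
structure Sw (D : Dat) (k : Ordinal.{0}) (a b : V) : Prop where
  qa : D.Q k a
  qb : D.Q k b
  ex : ∃ x : Ordinal.{0}, x.toZFSet ∈ a ∧ x.toZFSet ∈ b ∧
    (∀ y ∈ a, y ∈ x.toZFSet ∨ y = x.toZFSet) ∧ (∀ y ∈ b, y ∈ x.toZFSet ∨ y = x.toZFSet)

theorem Sw.symm {D : Dat} {k : Ordinal.{0}} {a b : V} (h : Sw D k a b) : Sw D k b a := by
  obtain ⟨x, h1, h2, h3, h4⟩ := h.ex
  exact ⟨h.qb, h.qa, x, h2, h1, h4, h3⟩

theorem Sw.prop (hPA : T_PA) {D : Dat} (hD : D.Ok) {k : Ordinal.{0}} {a b : V}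
    (h : Sw D k a b) {s : V} (hs : D.Q k s) (hsa : Ee s a) :
    D.Q k (sw a b s) ∧ Ee (sw a b s) b ∧ sw b a (sw a b s) = s ∧
    ∀ s', D.Q k s' → Ee s' a → (Ee s s' ↔ Ee (sw a b s) (sw a b s')) := by
  obtain ⟨x, h1, h2, h3, h4⟩ := h.ex
  obtain ⟨e1, e2, e3, e4, e5⟩ := hPA.2.2.2.2.2.2 (D.μ k) x _ a b h.qa.2 h.qb.2 h1 h2 h3 h4 s
    hs.2 hsa
  refine ⟨⟨?_, e1⟩, e2, ?_, fun s' hs' hs'a => e5 s' hs'.2 hs'a⟩
  · have z : ZFm (· ∈ LA ∅ D.θ) := hD.grd.zfc.toZFm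
    exact (Tm.union (Tm.var 0) (Tm.diff (Tm.var 1) (Tm.var 2))).1 _ z
      (cons b (cons s fun _ => a)) (In.cons (In.cons (fun _ => h.qa.1) hs.1) h.qb.1)
  · unfold sw
    rw [e3, e4]

theorem mem_TG {D : Dat} {G a b p : V} {k : Ordinal.{0}} :
    p ∈ TG D.c D.κ.toZFSet k.toZFSet (D.X G) a b ↔ p ∈ D.c ∧
      (∀ j < D.κ, j ≠ k → app p j.toZFSet ∈ D.F G j) ∧
      ∃ s ∈ D.F G k, Ee s a ∧ Ee (sw a b s) (app p k.toZFSet) := by
  unfold TG
  rw [ZFSet.mem_sep]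
  refine and_congr Iff.rfl (and_congr ?_ Iff.rfl)
  constructor
  · intro h j hj hjk
    exact h j.toZFSet (Ordinal.toZFSet_mem_toZFSet_iff.2 hj)
      (fun e => hjk (Ordinal.toZFSet_injective e))
  · intro h j hj hjk
    obtain ⟨j', hj', rfl⟩ := Ordinal.mem_toZFSet_iff.1 hj
    exact h j' hj' (fun e => hjk (by rw [e]))

section
variable {D : Dat} (hD : D.Ok) (hPA : T_PA) (hPB : T_PB) (hPC : T_PC) (hPF : T_PF) (hPG : T_PG)
include hD hPA hPB hPC hPF hPG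

theorem app_empty (j : V) : app (∅ : V) j = ∅ := by
  refine hPB.2.2.2 ∅ j fun h => ?_
  obtain ⟨y, hy⟩ := mem_dm.1 h
  exact ZFSet.notMem_empty _ hy

theorem q_empty {G : V} (hG : D.Gn G) {k : Ordinal.{0}} (hk : k < D.κ) : D.Q k ∅ := by
  obtain ⟨-, g2, -⟩ := hPG D hD G hG
  obtain ⟨-, f2, f3, -⟩ := g2 k hk
  exact f2 ∅ f3

theorem upd_self (p : V) (hp : p ∈ D.c) (k : Ordinal.{0}) (q : V) :
    app (upd p k.toZFSet q) k.toZFSet = q :=
  (hPB.2.2.1 p k.toZFSet q ((hPF D hD).2.2.2.2.1 p hp).1).2.1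

theorem upd_ne (p : V) (hp : p ∈ D.c) (k : Ordinal.{0}) (q : V) {j : Ordinal.{0}} (hj : j ≠ k) :
    app (upd p k.toZFSet q) j.toZFSet = app p j.toZFSet :=
  (hPB.2.2.1 p k.toZFSet q ((hPF D hD).2.2.2.2.1 p hp).1).2.2 j.toZFSet
    fun e => hj (Ordinal.toZFSet_injective e)

/-- the modified filter is generic -/
theorem gn {G : V} (hG : D.Gn G) {k : Ordinal.{0}} (hk : k < D.κ) {a b : V}
    (h : Sw D k a b) (ha : a ∈ D.F G k) :
    D.Gn (TG D.c D.κ.toZFSet k.toZFSet (D.X G) a b) := by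
  obtain ⟨eR, eT, eE, eA, eTr, -, -⟩ := id hPA
  obtain ⟨hpo, hcM, hrM, hec, hc5, -, -, hupd, hr, -, -, -⟩ := hPF D hD
  obtain ⟨g1, g2, -, -, -, -⟩ := hPG D hD G hG
  obtain ⟨f1, f2, f3, f4, f5, -, -, -⟩ := g2 k hk
  have hU := fun p (hp : p ∈ D.c) q => upd_self hD hPA hPB hPC hPF hPG p hp k q
  have hN := fun p (hp : p ∈ D.c) q {j : Ordinal.{0}} (hj : j ≠ k) =>
    upd_ne hD hPA hPB hPC hPF hPG p hp k q hj
  have hAE := app_empty hD hPA hPB hPC hPF hPG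
  have hQ0 := q_empty hD hPA hPB hPC hPF hPG hG hk
  have hup : ∀ p ∈ TG D.c D.κ.toZFSet k.toZFSet (D.X G) a b, ∀ q, ZFSet.pair p q ∈ D.r →
      q ∈ TG D.c D.κ.toZFSet k.toZFSet (D.X G) a b := by
    intro p hp q hpq
    obtain ⟨hpc, hpj, s, hs, hsa, hsp⟩ := mem_TG.1 hp
    obtain ⟨-, hqc, hle⟩ := (hr p q).1 hpq
    refine mem_TG.2 ⟨hqc, fun j hj hjk => ?_, s, hs, hsa, eT _ _ _ hsp (hle k hk)⟩
    exact (g2 j hj).2.2.2.1 _ (hpj j hj hjk) _ ((hc5 q hqc).2.2.1 j hj) (hle j hj)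
  refine ⟨⟨fun p hp => (mem_TG.1 hp).1, ⟨∅, mem_TG.2 ⟨hec, fun j hj hjk => ?_, a, ha, eR a, ?_⟩⟩,
    hup, ?_⟩, ?_⟩
  · rw [hAE]
    exact (g2 j hj).2.2.1
  · rw [hAE]
    exact eE _
  · -- directed
    intro p hp p' hp'
    obtain ⟨hpc, hpj, s, hs, hsa, hsp⟩ := mem_TG.1 hp
    obtain ⟨hpc', hpj', s', hs', hsa', hsp'⟩ := mem_TG.1 hp'
    have hu : ∀ p ∈ D.c, (∀ j < D.κ, j ≠ k → app p j.toZFSet ∈ D.F G j) →
        upd p k.toZFSet ∅ ∈ G := by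
      intro p hpc hpj
      refine (g1 _ (hupd p hpc k hk ∅ hQ0)).2 fun j hj => ?_
      by_cases hjk : j = k
      · subst hjk
        rw [hU p hpc]
        exact f3
      · rw [hN p hpc ∅ hjk]
        exact hpj j hj hjk
    obtain ⟨w, hw, hwu, hwu'⟩ := hG.1.dir _ (hu p hpc hpj) _ (hu p' hpc' hpj')
    obtain ⟨hwc, -, hl⟩ := (hr _ _).1 hwu
    obtain ⟨-, -, hl'⟩ := (hr _ _).1 hwu'
    obtain ⟨t, ht, hta, htp, htp'⟩ : ∃ t ∈ D.F G k, Ee t a ∧ Ee (sw a b t) (app p k.toZFSet) ∧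
        Ee (sw a b t) (app p' k.toZFSet) := by
      rcases f5 s hs s' hs' with h1 | h1
      · refine ⟨s, hs, hsa, hsp, eT _ _ _ ?_ hsp'⟩
        exact ((h.prop hPA hD (f2 s hs) hsa).2.2.2 s' (f2 s' hs') hsa').1 h1
      · refine ⟨s', hs', hsa', eT _ _ _ ?_ hsp, hsp'⟩
        exact ((h.prop hPA hD (f2 s' hs') hsa').2.2.2 s (f2 s hs) hsa).1 h1
    have hQt := (h.prop hPA hD (f2 t ht) hta).1
    have hvc := hupd w hwc k hk _ hQt
    refine ⟨upd w k.toZFSet (sw a b t), mem_TG.2 ⟨hvc, fun j hj hjk => ?_, t, ht, hta, ?_⟩, ?_, ?_⟩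
    · rw [hN w hwc _ hjk]
      exact (g1 w hwc).1 hw j hj
    · rw [hU w hwc]
      exact eR _
    · refine (hr _ _).2 ⟨hvc, hpc, fun j hj => ?_⟩
      by_cases hjk : j = k
      · subst hjk
        rw [hU w hwc]
        exact htp
      · rw [hN w hwc _ hjk]
        have := hl j hj
        rwa [hN p hpc _ hjk] at this
    · refine (hr _ _).2 ⟨hvc, hpc', fun j hj => ?_⟩
      by_cases hjk : j = k
      · subst hjk
        rw [hU w hwc]
        exact htp'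
      · rw [hN w hwc _ hjk]
        have := hl' j hj
        rwa [hN p' hpc' _ hjk] at this
  · -- generic
    intro W hW hWd
    have hWM : D.M (Wd D.c k.toZFSet a b D.r W) := by
      have z : ZFm (· ∈ LA ∅ D.θ) := hD.grd.zfc.toZFm
      have hkM : k.toZFSet ∈ LA ∅ D.θ :=
        (hD.grd.ord k).2 (hk.trans (hD.grd.κχ.trans hD.grd.χθ))
      exact (tm_Wd hPC).1 _ z (cons D.c (cons k.toZFSet (cons a (cons b (cons D.r fun _ => W)))))
        (In.cons (In.cons (In.cons (In.cons (In.cons (fun _ => hW) hrM) h.qb.1) h.qa.1) hkM) hcM)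
    have hdense : IsDense D.c D.r (Wd D.c k.toZFSet a b D.r W) := by
      refine ⟨fun p hp => (ZFSet.mem_sep.1 hp).1, fun p hpc => ?_⟩
      have hmain : ∀ p ∈ D.c, Ee (app p k.toZFSet) a →
          ∃ d ∈ Wd D.c k.toZFSet a b D.r W, ZFSet.pair d p ∈ D.r := by
        intro p hpc hpa
        have hQp := (hc5 p hpc).2.2.1 k hk
        obtain ⟨s1, s2, s3, s4⟩ := h.prop hPA hD hQp hpa
        have hp1 := hupd p hpc k hk _ s1
        obtain ⟨w, hw, hwp⟩ := hWd.2 _ hp1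
        obtain ⟨hwc, -, hl⟩ := (hr _ _).1 hwp
        have hwk := hl k hk
        rw [hU p hpc] at hwk
        have hwb : Ee (app w k.toZFSet) b := eT _ _ _ hwk s2
        have hQw := (hc5 w hwc).2.2.1 k hk
        obtain ⟨t1, t2, t3, t4⟩ := h.symm.prop hPA hD hQw hwb
        have hp2 := hupd w hwc k hk _ t1
        have h5 := (t4 _ s1 s2).1 hwk
        rw [s3] at h5
        refine ⟨_, ZFSet.mem_sep.2 ⟨hp2, Or.inl ⟨?_, w, hw, ?_⟩⟩, ?_⟩
        · rw [hU w hwc]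
          exact t2
        · have h6 : b ∪ (app (upd w k.toZFSet (sw b a (app w k.toZFSet))) k.toZFSet \ a) =
              app w k.toZFSet := by
            rw [hU w hwc]
            exact t3
          rw [h6]
          have h7 := hupd _ hp2 k hk _ hQw
          refine (hr _ _).2 ⟨h7, hwc, fun j hj => ?_⟩
          by_cases hjk : j = k
          · subst hjk
            rw [hU _ hp2]
            exact eR _
          · rw [hN _ hp2 _ hjk, hN w hwc _ hjk]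
            exact eR _
        · refine (hr _ _).2 ⟨hp2, hpc, fun j hj => ?_⟩
          by_cases hjk : j = k
          · subst hjk
            rw [hU w hwc]
            exact h5
          · rw [hN w hwc _ hjk]
            have := hl j hj
            rwa [hN p hpc _ hjk] at this
      by_cases h1 : Ee (app p k.toZFSet) a
      · exact hmain p hpc h1
      · by_cases h2 : Ee a (app p k.toZFSet)
        · have hp1 := hupd p hpc k hk a h.qa
          obtain ⟨d, hd, hdp⟩ := hmain _ hp1 (by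
            rw [hU p hpc]
            exact eR a)
          obtain ⟨hdc, -, hl⟩ := (hr _ _).1 hdp
          refine ⟨d, hd, (hr _ _).2 ⟨hdc, hpc, fun j hj => ?_⟩⟩
          have h3 := hl j hj
          by_cases hjk : j = k
          · subst hjk
            rw [hU p hpc] at h3
            exact eT _ _ _ h3 h2
          · rwa [hN p hpc _ hjk] at h3
        · refine ⟨p, ZFSet.mem_sep.2 ⟨hpc, Or.inr ⟨h1, h2⟩⟩, hpo.refl p hpc⟩
    obtain ⟨p, hp, hpW⟩ := hG.2 _ hWM hdense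
    have hpc := hG.1.sub hp
    have hpF := (g1 p hpc).1 hp
    rcases (ZFSet.mem_sep.1 hpW).2 with ⟨h1, w, hw, hwr⟩ | ⟨h1, h2⟩
    · obtain ⟨s1, s2, s3, s4⟩ := h.prop hPA hD (f2 _ (hpF k hk)) h1
      have hp3 := hupd p hpc k hk _ s1
      refine ⟨w, hup (upd p k.toZFSet (sw a b (app p k.toZFSet))) (mem_TG.2 ⟨hp3,
        fun j hj hjk => ?_, app p k.toZFSet, hpF k hk, h1, ?_⟩) w hwr, hw⟩
      · rw [hN p hpc _ hjk]
        exact hpF j hj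
      · rw [hU p hpc]
        exact eR _
    · rcases f5 _ (hpF k hk) a ha with h3 | h3
      · exact absurd h3 h1
      · exact absurd h3 h2

/-- the fibers of the modified filter -/
theorem fibs {G : V} (hG : D.Gn G) {k : Ordinal.{0}} (hk : k < D.κ) {a b : V}
    (h : Sw D k a b) (ha : a ∈ D.F G k) :
    (∀ j < D.κ, j ≠ k → D.F (TG D.c D.κ.toZFSet k.toZFSet (D.X G) a b) j = D.F G j) ∧
    (∀ q, q ∈ D.F (TG D.c D.κ.toZFSet k.toZFSet (D.X G) a b) k ↔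
      D.Q k q ∧ ∃ s ∈ D.F G k, Ee s a ∧ Ee (sw a b s) q) ∧
    ∀ q, q ∈ D.F G k ↔ D.Q k q ∧
      ∃ s ∈ D.F (TG D.c D.κ.toZFSet k.toZFSet (D.X G) a b) k, Ee s b ∧ Ee (sw b a s) q := by
  have hG' := gn hD hPA hPB hPC hPF hPG hG hk h ha
  set G' := TG D.c D.κ.toZFSet k.toZFSet (D.X G) a b with hGd
  obtain ⟨eR, eT, eE, eA, eTr, -, -⟩ := id hPA
  obtain ⟨hpo, hcM, hrM, hec, hc5, -, -, hupd, hr, -, -, -⟩ := hPF D hD
  obtain ⟨g1, g2, -, -, -, -⟩ := hPG D hD G hG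
  obtain ⟨f1, f2, f3, f4, f5, -, -, -⟩ := g2 k hk
  obtain ⟨g1', g2', -, -, -, -⟩ := hPG D hD G' hG'
  have hU := fun p (hp : p ∈ D.c) q => upd_self hD hPA hPB hPC hPF hPG p hp k q
  have hN := fun p (hp : p ∈ D.c) q {j : Ordinal.{0}} (hj : j ≠ k) =>
    upd_ne hD hPA hPB hPC hPF hPG p hp k q hj
  have hAE := app_empty hD hPA hPB hPC hPF hPG
  have hQ0 := q_empty hD hPA hPB hPC hPF hPG hG hk
  have key : ∀ q, q ∈ D.F G' k ↔ D.Q k q ∧ ∃ s ∈ D.F G k, Ee s a ∧ Ee (sw a b s) q := by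
    intro q
    constructor
    · intro hq
      refine ⟨(g2' k hk).2.1 q hq, ?_⟩
      obtain ⟨p, hp, rfl⟩ := ((g2' k hk).1 q).1 hq
      obtain ⟨-, -, hs⟩ := mem_TG.1 hp
      exact hs
    · rintro ⟨hQ, s, hs, hsa, hsq⟩
      refine ((g2' k hk).1 q).2 ⟨upd ∅ k.toZFSet q, mem_TG.2 ⟨hupd ∅ hec k hk q hQ,
        fun j hj hjk => ?_, s, hs, hsa, ?_⟩, (hU ∅ hec q).symm⟩
      · rw [hN ∅ hec q hjk, hAE]
        exact (g2 j hj).2.2.1
      · rw [hU ∅ hec q]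
        exact hsq
  refine ⟨fun j hj hjk => ?_, key, fun q => ?_⟩
  · ext q
    constructor
    · intro hq
      obtain ⟨p, hp, rfl⟩ := ((g2' j hj).1 q).1 hq
      exact (mem_TG.1 hp).2.1 j hj hjk
    · intro hq
      obtain ⟨p, hp, rfl⟩ := ((g2 j hj).1 q).1 hq
      have hpc := hG.1.sub hp
      refine ((g2' j hj).1 _).2 ⟨upd p k.toZFSet ∅, mem_TG.2 ⟨hupd p hpc k hk ∅ hQ0,
        fun i hi hik => ?_, a, ha, eR a, ?_⟩, (hN p hpc ∅ hjk).symm⟩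
      · rw [hN p hpc ∅ hik]
        exact (g1 p hpc).1 hp i hi
      · rw [hU p hpc]
        exact eE _
  · constructor
    · intro hq
      refine ⟨f2 q hq, ?_⟩
      obtain ⟨s, hs, hsa, hsq⟩ : ∃ s ∈ D.F G k, Ee s a ∧ Ee s q := by
        rcases f5 q hq a ha with h1 | h1
        · exact ⟨q, hq, h1, eR q⟩
        · exact ⟨a, ha, eR a, h1⟩
      obtain ⟨s1, s2, s3, s4⟩ := h.prop hPA hD (f2 s hs) hsa
      refine ⟨sw a b s, (key _).2 ⟨s1, s, hs, hsa, eR _⟩, s2, ?_⟩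
      rw [s3]
      exact hsq
    · rintro ⟨hQ, s', hs', hsb, hsq⟩
      obtain ⟨hQs', s, hs, hsa, hss'⟩ := (key s').1 hs'
      obtain ⟨s1, s2, s3, s4⟩ := h.prop hPA hD (f2 s hs) hsa
      have h1 := ((h.symm.prop hPA hD s1 s2).2.2.2 s' hQs' hsb).1 hss'
      rw [s3] at h1
      exact f4 s hs q hQ (eT _ _ _ h1 hsq)

/-- the original filter from the modified one -/
theorem back {G : V} (hG : D.Gn G) {k : Ordinal.{0}} (hk : k < D.κ) {a b : V}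
    (h : Sw D k a b) (ha : a ∈ D.F G k) :
    TG D.c D.κ.toZFSet k.toZFSet (D.X (TG D.c D.κ.toZFSet k.toZFSet (D.X G) a b)) b a = G := by
  obtain ⟨e1, -, e3⟩ := fibs hD hPA hPB hPC hPF hPG hG hk h ha
  obtain ⟨g1, g2, -, -, -, -⟩ := hPG D hD G hG
  obtain ⟨hpo, hcM, hrM, hec, hc5, -, -, hupd, hr, -, -, -⟩ := hPF D hD
  ext p
  rw [mem_TG]
  constructor
  · rintro ⟨hpc, hpj, hs⟩
    refine (g1 p hpc).2 fun j hj => ?_
    by_cases hjk : j = k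
    · subst hjk
      exact (e3 _).2 ⟨(hc5 p hpc).2.2.1 j hj, hs⟩
    · have := hpj j hj hjk
      rwa [e1 j hj hjk] at this
  · intro hp
    have hpc := hG.1.sub hp
    refine ⟨hpc, fun j hj hjk => ?_, ((e3 _).1 ((g1 p hpc).1 hp k hk)).2⟩
    rw [e1 j hj hjk]
    exact (g1 p hpc).1 hp j hj

/-- the modified filter is in the extension -/
theorem inExt (hFI : T_FI) (hFN : T_FN) {G : V} (hG : D.Gn G) {k : Ordinal.{0}} (hk : k < D.κ)
    {a b : V} (hab : Sw D k a b) {G' : V}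
    (hG' : G' = TG D.c D.κ.toZFSet k.toZFSet (D.X G) a b) (x : V) (hx : Ext D.M G' x) :
    Ext D.M G x := by
  obtain ⟨hpo, hcM, hrM, -⟩ := hPF D hD
  have z : ZFm D.M := hD.grd.zfc.toZFm
  obtain ⟨zE, hME, hGE⟩ := hFI D.M D.c D.r G z hcM hrM hpo hG
  have hord : ∀ α : Ordinal.{0}, α < D.θ → D.M α.toZFSet := fun α hα => (hD.grd.ord α).2 hα
  have hκ : Ext D.M G D.κ.toZFSet := hME _ (hord _ (hD.grd.κχ.trans hD.grd.χθ))
  have hkE : Ext D.M G k.toZFSet := hME _ (hord _ (hk.trans (hD.grd.κχ.trans hD.grd.χθ)))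
  have hX : Ext D.M G (D.X G) :=
    (hPC.2.2.2.2.2.2.1).1 _ zE (cons D.κ.toZFSet fun _ => G) (In.cons (fun _ => hGE) hκ)
  refine hFN D.M (Ext D.M G) G' zE hME ?_ x hx
  rw [hG']
  exact (tm_TG hPC).1 _ zE
    (cons D.c (cons D.κ.toZFSet (cons k.toZFSet (cons (D.X G) (cons a fun _ => b)))))
    (In.cons (In.cons (In.cons (In.cons (In.cons (fun _ => hME _ hab.qb.1) (hME _ hab.qa.1)) hX)
      hkE) hκ) (hME _ hcM))

/-- the modified fiber is in the models which contain the fiber -/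
theorem fibW {G G' : V} {k : Ordinal.{0}} (hk : k < D.κ) {a b : V} (hab : Sw D k a b)
    (hF : ∀ q, q ∈ D.F G' k ↔ D.Q k q ∧ ∃ s ∈ D.F G k, Ee s a ∧ Ee (sw a b s) q)
    (W : V → Prop) (zW : ZFm W) (hMW : ∀ x, D.M x → W x) (hW : W (D.F G k)) :
    W (D.F G' k) := by
  have z : ZFm D.M := hD.grd.zfc.toZFm
  have hμ : (D.μ k).toZFSet ∈ LA ∅ D.κ :=
    ord_mem_Lh (ZFSet.isTransitive_empty) (hD.sz.μκ k hk)
  obtain ⟨ρ, hρ, hρb⟩ := hD.grd.powκ _ hμ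
  have hρθ : ρ < D.θ := hρ.trans (hD.grd.κχ.trans hD.grd.χθ)
  have hL : D.M (LA ∅ ρ) := Lh_mem hρθ
  have hμM : D.M (D.μ k).toZFSet :=
    (hD.grd.ord _).2 ((hD.sz.μκ k hk).trans (hD.grd.κχ.trans hD.grd.χθ))
  have hkM : D.M k.toZFSet := (hD.grd.ord _).2 (hk.trans (hD.grd.κχ.trans hD.grd.χθ))
  have hEf : D.M D.Ef := Lh_mono hD.grd.χθ.le hD.eM
  have hE : D.M (app D.Ef k.toZFSet) :=
    (Tm.app (Tm.var 0) (Tm.var 1)).1 _ z (cons D.Ef fun _ => k.toZFSet)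
      (In.cons (fun _ => hkM) hEf)
  have e : D.F G' k = TF (LA ∅ ρ) (D.μ k).toZFSet (app D.Ef k.toZFSet) (D.F G k) a b := by
    ext q
    rw [hF]
    unfold TF
    rw [ZFSet.mem_sep]
    constructor
    · rintro ⟨hQ, hs⟩
      exact ⟨hρb q hQ.1 hQ.2.sub, hQ.2, hs⟩
    · rintro ⟨hq, hQ, hs⟩
      exact ⟨⟨Lh_mono hρθ.le hq, hQ⟩, hs⟩
  rw [e]
  exact (tm_TF hPC).1 _ zW
    (cons (LA ∅ ρ) (cons (D.μ k).toZFSet (cons (app D.Ef k.toZFSet) (cons (D.F G k)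
      (cons a fun _ => b)))))
    (In.cons (In.cons (In.cons (In.cons (In.cons (fun _ => hMW _ hab.qb.1) (hMW _ hab.qa.1)) hW)
      (hMW _ hE)) (hMW _ hμM)) (hMW _ hL))

end

end PM74

open PM74 in
theorem pf_PM (hPA : T_PA) (hPB : T_PB) (hPC : T_PC) (hPF : T_PF) (hPG : T_PG) (hFI : T_FI)
    (hFN : T_FN) : T_PM := by
  intro D hD G hG k hk q hq
  obtain ⟨eR, eT, eE, eA, eTr, eIns, -⟩ := id hPA
  obtain ⟨g1, g2, -, -, g5, -⟩ := hPG D hD G hG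
  obtain ⟨f1, f2, f3, f4, f5, f6, -, -⟩ := g2 k hk
  have hμ0 : (0 : Ordinal.{0}) < D.μ k :=
    lt_of_le_of_lt zero_le (hD.sz.γμ k hk)
  -- a bound of `q`
  obtain ⟨x, hx, hxq⟩ : ∃ x < D.μ k, ∀ z ∈ q, z ∈ x.toZFSet ∨ z = x.toZFSet := by
    rcases hq.2.mx with h | ⟨d, hd, hdm⟩
    · exact ⟨0, hμ0, fun z hz => absurd (h ▸ hz) (ZFSet.notMem_empty z)⟩
    · obtain ⟨d', hd', rfl⟩ := Ordinal.mem_toZFSet_iff.1 (hq.2.sub hd)
      exact ⟨d', hd', hdm⟩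
  obtain ⟨a, ha, y, hy, hxy, hya, hmax⟩ := f6 x hx
  have hyq : ∀ z ∈ q, z ∈ y.toZFSet := by
    intro z hz
    rcases hxq z hz with h | h
    · obtain ⟨z', hz', rfl⟩ := Ordinal.mem_toZFSet_iff.1 h
      exact Ordinal.toZFSet_mem_toZFSet_iff.2 (hz'.trans hxy)
    · rw [h]
      exact Ordinal.toZFSet_mem_toZFSet_iff.2 hxy
  have hQa := f2 a ha
  have hb := eIns (D.μ k) y _ q hq.2 hy (hQa.2.dj _ hya) hyq
  set b : V := insert y.toZFSet q with hbd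
  have z : ZFm D.M := hD.grd.zfc.toZFm
  have hyM : D.M y.toZFSet :=
    (hD.grd.ord _).2 (hy.trans ((hD.sz.μκ k hk).trans (hD.grd.κχ.trans hD.grd.χθ)))
  have hbM : D.M b :=
    (Tm.ins (Tm.var 0) (Tm.var 1)).1 _ z (cons y.toZFSet fun _ => q)
      (In.cons (fun _ => hq.1) hyM)
  have hab : Sw D k a b := by
    refine ⟨hQa, ⟨hbM, hb.1⟩, y, hya, ZFSet.mem_insert _ _, hmax, ?_⟩
    intro z hz
    rcases ZFSet.mem_insert_iff.1 hz with h | h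
    · exact Or.inr h
    · exact Or.inl (hyq z h)
  have hG' := gn hD hPA hPB hPC hPF hPG hG hk hab ha
  obtain ⟨e1, e2, e3⟩ := fibs hD hPA hPB hPC hPF hPG hG hk hab ha
  have hback := back hD hPA hPB hPC hPF hPG hG hk hab ha
  set G' := TG D.c D.κ.toZFSet k.toZFSet (D.X G) a b with hGd
  obtain ⟨-, -, -, -, g5', -⟩ := hPG D hD G' hG'
  refine ⟨G', hG', e1, ?_, fun x => ⟨?_, ?_⟩, ?_, fun W zW hMW => ⟨?_, ?_⟩⟩
  · refine (e2 q).2 ⟨hq, a, ha, eR a, ?_⟩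
    exact eT _ _ _ (hab.prop hPA hD hQa (eR a)).2.1 hb.2
  · exact inExt hD hPA hPB hPC hPF hPG hFI hFN hG hk hab hGd x
  · exact inExt hD hPA hPB hPC hPF hPG hFI hFN hG' hk hab.symm hback.symm x
  · -- the finite modification classes
    have hsub : ∀ G : V, D.H G ⊆ D.c := fun G p hp => by
      unfold Dat.H Hs at hp
      exact (ZFSet.mem_sep.1 hp).1
    ext p
    constructor
    · intro hp
      have hpc := hsub _ hp
      refine (g5 p hpc).2 ((((g5' p hpc).1 hp).insert k).subset ?_)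
      rintro j ⟨hj, hjF⟩
      by_cases hjk : j = k
      · exact Set.mem_insert_iff.2 (Or.inl hjk)
      · refine Set.mem_insert_iff.2 (Or.inr ⟨hj, ?_⟩)
        rw [e1 j hj hjk]
        exact hjF
    · intro hp
      have hpc := hsub _ hp
      refine (g5' p hpc).2 ((((g5 p hpc).1 hp).insert k).subset ?_)
      rintro j ⟨hj, hjF⟩
      by_cases hjk : j = k
      · exact Set.mem_insert_iff.2 (Or.inl hjk)
      · refine Set.mem_insert_iff.2 (Or.inr ⟨hj, ?_⟩)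
        rw [e1 j hj hjk] at hjF
        exact hjF
  · exact fibW hD hPA hPB hPC hPF hPG hk hab e2 W zW hMW
  · exact fibW hD hPA hPB hPC hPF hPG hk hab.symm e3 W zW hMW

end CAA
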