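import Pool.Agent.H9.CA.Tool
import Pool.Agent.H68.SF.LBas

/-!
# Basic facts on the hierarchy of stationary logic
-/

open Ordinal Order Set
open scoped ZFSet

namespace CAA

open SF

namespace X74

/-- first-order formulas as formulas of stationary logic -/
def tr : Fml → AF
  | .mem i j => .mem i j
  | .eq i j => .eq i j
  | .prd i => .neg (.eq i i)
  | .neg φ => .neg (tr φ)
  | .and φ ψ => .and (tr φ) (tr ψ)
  | .ex φ => .ex (tr φ)

theorem aaSat_tr (N : V → Prop) (A : V) (φ : Fml) (v s : ℕ → V) :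
    AaSat N A (tr φ) v s ↔ SatP (· ∈ A) (· ∈ (∅ : V)) φ v := by
  induction φ generalizing v with
  | mem i j => rfl
  | eq i j => rfl
  | prd i => simp [tr, AaSat, SatP]
  | neg φ ih => simp only [tr, AaSat, SatP, ih]
  | and φ ψ ih1 ih2 => simp only [tr, AaSat, SatP, ih1, ih2]
  | ex φ ih => simp only [tr, AaSat, SatP, ih]

theorem mem_DefA {N : V → Prop} {A y : V} : y ∈ DefA N A ↔ ∃ (φ : AF) (l : List V),
    (∀ p ∈ l, p ∈ A) ∧
      y = A.sep fun z => AaSat N A φ (cons z fun i => l.getD i z) fun _ => ∅ := by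
  unfold DefA
  rw [ZFSet.mem_sep]
  constructor
  · exact fun h => h.2
  · rintro ⟨φ, l, hl, rfl⟩
    exact ⟨ZFSet.mem_powerset.2 (ZFSet.sep_subset), φ, l, hl, rfl⟩

theorem DefA_sub {N : V → Prop} {A y : V} (h : y ∈ DefA N A) : y ⊆ A := by
  obtain ⟨φ, l, -, rfl⟩ := mem_DefA.1 h
  exact ZFSet.sep_subset

theorem Def_sub_DefA (N : V → Prop) (A : V) : Def A ∅ ⊆ DefA N A := by
  intro y hy
  obtain ⟨φ, l, hl, rfl⟩ := mem_Def.1 hy
  refine mem_DefA.2 ⟨tr φ, l, hl, ?_⟩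
  ext z
  simp only [ZFSet.mem_sep, aaSat_tr]

theorem mem_La {N : V → Prop} {α : Ordinal.{0}} {x : V} :
    x ∈ La N α ↔ ∃ β < α, x ∈ DefA N (La N β) := by
  rw [La]
  simp only [ZFSet.mem_iUnion, Subtype.exists, Set.mem_Iio, exists_prop]

theorem La_mono {N : V → Prop} {α β : Ordinal.{0}} (h : α ≤ β) : La N α ⊆ La N β := by
  intro x hx
  obtain ⟨γ, hγ, hx⟩ := mem_La.1 hx
  exact mem_La.2 ⟨γ, lt_of_lt_of_le hγ h, hx⟩

theorem La_tr (N : V → Prop) (α : Ordinal.{0}) : (La N α).IsTransitive := by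
  intro x hx y hy
  obtain ⟨β, hβ, hx⟩ := mem_La.1 hx
  exact La_mono hβ.le (DefA_sub hx hy)

theorem La_succ (N : V → Prop) (α : Ordinal.{0}) : La N (succ α) = DefA N (La N α) := by
  ext x
  constructor
  · intro hx
    obtain ⟨β, hβ, hx⟩ := mem_La.1 hx
    rcases (Order.lt_succ_iff.1 hβ).eq_or_lt with h | h
    · rw [← h]
      exact hx
    · exact Def_sub_DefA N _ (sub_Def (La_tr N α) (mem_La.2 ⟨β, h, hx⟩))
  · intro hx
    exact mem_La.2 ⟨α, Order.lt_succ α, hx⟩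

end X74

open X74 in
theorem pf_DX : T_DX := by
  intro N
  refine ⟨fun α β h => La_mono h, La_tr N, ?_, La_succ N, ?_, fun α x => mem_La⟩
  · intro γ hγ x hx
    obtain ⟨β, hβ, hx⟩ := mem_La.1 hx
    exact ⟨succ β, hγ.succ_lt hβ, mem_La.2 ⟨β, Order.lt_succ β, hx⟩⟩
  · intro α
    rw [La_succ]
    exact Def_sub_DefA N _

end CAA
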