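import Pool.Agent.H9.CA.Tool

/-!
# The satisfaction relation of a formula of stationary logic is uniformly definable
-/

open Ordinal Order Set
open scoped ZFSet

namespace CAA

open SF

namespace X74

theorem lc_mem_ls {A : V} {l : List V} (hl : ∀ p ∈ l, p ∈ A) (k : ℕ) :
    lc l ∈ ls A k ↔ l.length = k := by
  rw [mem_ls]
  constructor
  · rintro ⟨l', h1, -, h2⟩
    rw [lc_inj h2, h1]
  · intro h
    exact ⟨l, h, hl, rfl⟩

theorem dfb_finF : Dfb ZFm (fun _ v => FinF (v 0) (v 1)) := by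
  have h1 : Dfb ZFm (fun _ v => ∀ z ∈ v 1, ∃ m ∈ om, ∃ s ∈ Lw (v 0), ∃ y ∈ v 0,
      z = ZFSet.pair m (ZFSet.pair s y)) :=
    (Dfb.ball ktr_zfm (Tm.var 1) (Dfb.bex ktr_zfm Tm.om (Dfb.bex ktr_zfm (Tm.Lw (Tm.var 2))
      (Dfb.bex ktr_zfm (Tm.var 3) (Dfb.eq (Tm.var 3)
        (Tm.pair (Tm.var 2) (Tm.pair (Tm.var 1) (Tm.var 0)))))))).congr
      fun M k v hv => Iff.rfl
  have h2 : Dfb ZFm (fun _ v => ∀ m ∈ om, ∀ s ∈ Lw (v 0), ∀ y ∈ v 0, ∀ y' ∈ v 0,
      (ZFSet.pair m (ZFSet.pair s y) ∈ v 1 → ZFSet.pair m (ZFSet.pair s y') ∈ v 1 → y = y')) :=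
    (Dfb.ball ktr_zfm Tm.om (Dfb.ball ktr_zfm (Tm.Lw (Tm.var 1)) (Dfb.ball ktr_zfm (Tm.var 2)
      (Dfb.ball ktr_zfm (Tm.var 3)
        ((Dfb.pairMem (Tm.var 3) (Tm.pair (Tm.var 2) (Tm.var 1)) (Tm.var 5)).imp
          ((Dfb.pairMem (Tm.var 3) (Tm.pair (Tm.var 2) (Tm.var 0)) (Tm.var 5)).imp
            (Dfb.eq (Tm.var 1) (Tm.var 0)))))))).congr
      fun M k v hv => Iff.rfl
  have h3 : Dfb ZFm (fun _ v => ∀ m ∈ om, ∃ k ∈ om, ∀ s ∈ Lw (v 0), (s ∈ ls (v 0) (nn k) ↔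
      ∃ y ∈ v 0, ZFSet.pair m (ZFSet.pair s y) ∈ v 1)) :=
    (Dfb.ball ktr_zfm Tm.om (Dfb.bex ktr_zfm Tm.om (Dfb.ball ktr_zfm (Tm.Lw (Tm.var 2))
      ((Dfb.mem (Tm.var 0) (Tm.ls (Tm.var 3) (Tm.var 1))).iff
        (Dfb.bex ktr_zfm (Tm.var 3)
          (Dfb.pairMem (Tm.var 3) (Tm.pair (Tm.var 1) (Tm.var 0)) (Tm.var 5))))))).congr
      fun M k v hv => Iff.rfl
  refine (h1.and (h2.and h3)).congr fun M k v hv => ?_
  constructor
  · rintro ⟨a1, a2, a3⟩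
    have hsub : ∀ z ∈ v 1, ∃ (n : ℕ) (l : List V) (y : V), (∀ p ∈ l, p ∈ v 0) ∧ y ∈ v 0 ∧
        z = ZFSet.pair (nS n) (ZFSet.pair (lc l) y) := by
      intro z hz
      obtain ⟨m, hm, s, hs, y, hy, e⟩ := a1 z hz
      obtain ⟨n, rfl⟩ := mem_om.1 hm
      obtain ⟨l, hl, rfl⟩ := mem_Lw.1 hs
      exact ⟨n, l, y, hl, hy, e⟩
    have hin : ∀ (n : ℕ) (l : List V) (y : V), ZFSet.pair (nS n) (ZFSet.pair (lc l) y) ∈ v 1 →
        (∀ p ∈ l, p ∈ v 0) ∧ y ∈ v 0 := by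
      intro n l y h
      obtain ⟨n', l', y', hl', hy', e⟩ := hsub _ h
      obtain ⟨-, e2⟩ := ZFSet.pair_inj.1 e
      obtain ⟨e3, e4⟩ := ZFSet.pair_inj.1 e2
      have := lc_inj e3
      subst this
      exact ⟨hl', e4 ▸ hy'⟩
    refine ⟨hsub, ?_, ?_⟩
    · intro n l y y' h h'
      obtain ⟨i1, i2⟩ := hin n l y h
      obtain ⟨-, i3⟩ := hin n l y' h'
      exact a2 _ (nS_mem_om n) _ (mem_Lw.2 ⟨l, i1, rfl⟩) y i2 y' i3 h h'
    · intro n
      obtain ⟨c, hc, h⟩ := a3 _ (nS_mem_om n)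
      obtain ⟨c, rfl⟩ := mem_om.1 hc
      refine ⟨c, fun l hl => ?_⟩
      have h' := h _ (mem_Lw.2 ⟨l, hl, rfl⟩)
      rw [nn_nS, lc_mem_ls hl] at h'
      rw [h']
      constructor
      · rintro ⟨y, -, hy⟩
        exact ⟨y, hy⟩
      · rintro ⟨y, hy⟩
        exact ⟨y, (hin n l y hy).2, hy⟩
  · intro h
    refine ⟨?_, ?_, ?_⟩
    · intro z hz
      obtain ⟨n, l, y, hl, hy, e⟩ := h.sub z hz
      exact ⟨_, nS_mem_om n, _, mem_Lw.2 ⟨l, hl, rfl⟩, y, hy, e⟩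
    · intro m hm s hs y _ y' _ h1 h2
      obtain ⟨n, rfl⟩ := mem_om.1 hm
      obtain ⟨l, hl, rfl⟩ := mem_Lw.1 hs
      exact h.svl n l y y' h1 h2
    · intro m hm
      obtain ⟨n, rfl⟩ := mem_om.1 hm
      obtain ⟨c, hc⟩ := h.tot n
      refine ⟨_, nS_mem_om c, fun s hs => ?_⟩
      obtain ⟨l, hl, rfl⟩ := mem_Lw.1 hs
      rw [nn_nS, lc_mem_ls hl, hc l hl]
      constructor
      · rintro ⟨y, hy⟩
        obtain ⟨n', l', y', -, hy', e⟩ := h.sub _ hy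
        obtain ⟨-, e2⟩ := ZFSet.pair_inj.1 e
        obtain ⟨-, e4⟩ := ZFSet.pair_inj.1 e2
        exact ⟨y, e4 ▸ hy', hy⟩
      · rintro ⟨y, -, hy⟩
        exact ⟨y, hy⟩

theorem dfb_clo : Dfb ZFm (fun _ v => Clo (v 0) (v 1)) := by
  have h1 : Dfb ZFm (fun M v => ∀ m ∈ om, ∀ s ∈ Lw (v 1), ∀ y, M y →
      (ZFSet.pair m (ZFSet.pair s y) ∈ v 0 → y ∈ v 1)) :=
    (Dfb.ball ktr_zfm Tm.om (Dfb.ball ktr_zfm (Tm.Lw (Tm.var 2))
      (Dfb.all ((Dfb.pairMem (Tm.var 2) (Tm.pair (Tm.var 1) (Tm.var 0)) (Tm.var 3)).imp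
        (Dfb.mem (Tm.var 0) (Tm.var 4)))))).congr
      fun M k v hv => Iff.rfl
  refine h1.congr fun M k v hv => ?_
  constructor
  · intro a n l y hl hy
    have h2 := (k.of_pair (k.of_pair_mem (hv 0) hy).2).2
    exact a _ (nS_mem_om n) _ (mem_Lw.2 ⟨l, hl, rfl⟩) y h2 hy
  · intro a m hm s hs y _ hy
    obtain ⟨n, rfl⟩ := mem_om.1 hm
    obtain ⟨l, hl, rfl⟩ := mem_Lw.1 hs
    exact a n l y hl hy

theorem dfb_ctbl : Dfb ZFm (fun _ v => Ctbl (· ∈ v 0) (v 1)) :=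
  ((Dfb.eq (Tm.var 1) Tm.empty).or (Dfb.bex ktr_zfm (Tm.var 0)
    (Dfb.onto (Tm.var 0) Tm.om (Tm.var 2)))).congr fun M k v hv => Iff.rfl

/-- renaming for the first-order quantifier -/
def r1 (n : ℕ) : ℕ := if n = 2 then 0 else if n < 2 then n + 1 else if n % 2 = 1 then n + 1 else n - 1

/-- renaming for the second-order quantifier -/
def r2 (n : ℕ) : ℕ := if n = 3 then 0 else if n = 1 then 3 else if n % 2 = 0 then n + 2 else n

end X74

open X74 in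
theorem pf_DV : T_DV := by
  intro φ
  induction φ with
  | mem i j => exact (Dfb.mem (Tm.var _) (Tm.var _)).congr fun M k v hv => Iff.rfl
  | eq i j => exact (Dfb.eq (Tm.var _) (Tm.var _)).congr fun M k v hv => Iff.rfl
  | ins i j => exact (Dfb.mem (Tm.var _) (Tm.var _)).congr fun M k v hv => Iff.rfl
  | neg φ ih => exact ih.not.congr fun M k v hv => Iff.rfl
  | and φ ψ ih1 ih2 => exact (ih1.and ih2).congr fun M k v hv => Iff.rfl
  | ex φ ih =>
    refine (Dfb.bex ktr_zfm (Tm.var 1) (ih.rn r1)).congr fun M k v hv => ?_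
    show (∃ x ∈ v 1, _) ↔ ∃ x ∈ v 1, _
    refine exists_congr fun x => and_congr_right fun _ => ?_
    have e1 : (fun i => cons x v (r1 (2 * i + 2))) = cons x fun i => v (2 * i + 2) := by
      funext i
      cases i with
      | zero => rfl
      | succ i =>
        have : r1 (2 * (i + 1) + 2) = 2 * i + 2 + 1 := by
          unfold r1
          rw [if_neg (by omega), if_neg (by omega), if_neg (by omega)]
          omega
        rw [this, cons_succ, cons_succ]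
    have e2 : (fun i => cons x v (r1 (2 * i + 3))) = fun i => v (2 * i + 3) := by
      funext i
      have : r1 (2 * i + 3) = 2 * i + 3 + 1 := by
        unfold r1
        rw [if_neg (by omega), if_neg (by omega), if_pos (by omega)]
      rw [this, cons_succ]
    rw [e1, e2]
    exact Iff.rfl
  | aa φ ih =>
    refine (Dfb.bex ktr_zfm (Tm.var 0) ((Dfb.at2 (P := fun _ x y => FinF x y) dfb_finF (Tm.var 2)
      (Tm.var 0)).and (Dfb.ball ktr_zfm (Tm.var 1)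
        ((Dfb.at2 (P := fun _ x y => Ctbl (· ∈ x) y) dfb_ctbl (Tm.var 2) (Tm.var 0)).imp
          ((Dfb.subset (Tm.var 0) (Tm.var 3)).imp
            ((Dfb.at2 (P := fun _ x y => Clo x y) dfb_clo (Tm.var 1) (Tm.var 0)).imp
              (ih.rn r2))))))).congr fun M k v hv => ?_
    show (∃ F ∈ v 0, FinF (v 1) F ∧ ∀ z ∈ v 0, Ctbl (· ∈ v 0) z → z ⊆ v 1 → Clo F z → _) ↔
      ∃ F, F ∈ v 0 ∧ FinF (v 1) F ∧ ∀ z, z ∈ v 0 → Ctbl (· ∈ v 0) z → z ⊆ v 1 → Clo F z → _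
    refine exists_congr fun F => and_congr_right fun _ => and_congr_right fun _ =>
      forall_congr' fun z => imp_congr_right fun _ => imp_congr_right fun _ =>
      imp_congr_right fun _ => imp_congr_right fun _ => ?_
    have e1 : (fun i => cons z (cons F v) (r2 (2 * i + 2))) = fun i => v (2 * i + 2) := by
      funext i
      have : r2 (2 * i + 2) = 2 * i + 2 + 1 + 1 := by
        unfold r2
        rw [if_neg (by omega), if_neg (by omega), if_pos (by omega)]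
      rw [this, cons_succ, cons_succ]
    have e2 : (fun i => cons z (cons F v) (r2 (2 * i + 3))) =
        cons z fun i => v (2 * i + 3) := by
      funext i
      cases i with
      | zero => rfl
      | succ i =>
        have : r2 (2 * (i + 1) + 3) = 2 * i + 3 + 1 + 1 := by
          unfold r2
          rw [if_neg (by omega), if_neg (by omega), if_neg (by omega)]
          omega
        rw [this, cons_succ, cons_succ, cons_succ]
    rw [e1, e2]
    exact Iff.rfl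

end CAA
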