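import Pool.Agent.H9.CA.TarQ
import Pool.Agent.H68.SF.LBas

/-!
# Initial segments of the set of the active nodes are in `C(aa)` of `N_β`
-/

set_option linter.unusedVariables false

open Ordinal Order Set
open scoped ZFSet

namespace CAA

open SF

namespace QH74

/-- a bound of the free first-order variables -/
def bd : AF → ℕ
  | .mem i j => max i j + 1
  | .eq i j => max i j + 1
  | .ins i _ => i + 1
  | .neg φ => bd φ
  | .and φ ψ => max (bd φ) (bd ψ)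
  | .ex φ => bd φ
  | .aa φ => bd φ

theorem sat_congr (N : V → Prop) (A : V) (φ : AF) : ∀ (v w s : ℕ → V),
    (∀ i < bd φ, v i = w i) → (AaSat N A φ v s ↔ AaSat N A φ w s) := by
  induction φ with
  | mem i j =>
    intro v w s h
    simp only [AaSat, bd] at h ⊢
    rw [h i (by omega), h j (by omega)]
  | eq i j =>
    intro v w s h
    simp only [AaSat, bd] at h ⊢
    rw [h i (by omega), h j (by omega)]
  | ins i k =>
    intro v w s h
    simp only [AaSat, bd] at h ⊢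
    rw [h i (by omega)]
  | neg φ ih =>
    intro v w s h
    simp only [AaSat, bd] at h ⊢
    exact not_congr (ih v w s h)
  | and φ ψ ih1 ih2 =>
    intro v w s h
    simp only [AaSat, bd] at h ⊢
    exact and_congr (ih1 v w s fun i hi => h i (lt_max_of_lt_left hi))
      (ih2 v w s fun i hi => h i (lt_max_of_lt_right hi))
  | ex φ ih =>
    intro v w s h
    simp only [AaSat, bd] at h ⊢
    refine exists_congr fun x => and_congr Iff.rfl (ih _ _ s fun i hi => ?_)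
    cases i with
    | zero => rfl
    | succ n => exact h n (by omega)
  | aa φ ih =>
    intro v w s h
    simp only [AaSat, bd] at h ⊢
    refine exists_congr fun F => and_congr Iff.rfl (and_congr Iff.rfl ?_)
    exact forall_congr' fun z => forall_congr' fun _ => forall_congr' fun _ =>
      forall_congr' fun _ => forall_congr' fun _ => ih v w _ h

/-- the parameter -/
noncomputable def pp (l mu Ef : V) : V :=
  imS l fun i => ZFSet.pair i (ZFSet.pair (app mu i) (app Ef i))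

theorem tm_pp : Tm ZFm (fun _ v => pp (v 0) (v 1) (v 2)) := by
  have h1 : Tm ZFm (fun _ v => ZFSet.pair (v 0) (ZFSet.pair (app (v 2) (v 0)) (app (v 3) (v 0)))) :=
    Tm.pair (Tm.var 0) (Tm.pair (Tm.app (Tm.var 2) (Tm.var 0)) (Tm.app (Tm.var 3) (Tm.var 0)))
  exact (Tm.image (Tm.var 0) h1).congr fun M k v hv => rfl

theorem tm_mu : Tm ZFm (fun _ v => resS (v 0) fun i => app (v 1) i) := by
  have h1 : Tm ZFm (fun _ v => app (v 2) (v 0)) := Tm.app (Tm.var 2) (Tm.var 0)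
  exact (Tm.resS (Tm.var 0) h1).congr fun M k v hv => rfl

theorem ord_of_mem {l : Ordinal.{0}} {x : V} (h : x ∈ l.toZFSet) :
    ∃ i < l, x = i.toZFSet := by
  obtain ⟨i, hi, e⟩ := Ordinal.mem_toZFSet_iff.1 h
  exact ⟨i, hi, e.symm⟩

/-- the parameter is in `L_κ` -/
theorem pp_mem {D : Dat} (hD : D.Ok) {l : Ordinal.{0}} (hl : l < D.κ) :
    pp l.toZFSet D.mu D.Ef ∈ LA ∅ D.κ ∧ ∃ η < D.κ, ∀ i < l, D.μ i < η := by
  have g := hD.grd
  have kθ : ZFm (· ∈ LA ∅ D.θ) := g.zfc.toZFm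
  have hχθ : ∀ x ∈ LA ∅ D.χ, x ∈ LA ∅ D.θ := fun x hx => Lh_mono g.χθ.le hx
  have hmu : D.mu ∈ LA ∅ D.θ := hχθ _ hD.sz.muM
  have hEf : D.Ef ∈ LA ∅ D.θ := hχθ _ hD.eM
  have hlθ : l.toZFSet ∈ LA ∅ D.θ := (g.ord l).2 (hl.trans (g.κχ.trans g.χθ))
  have hlκ : l.toZFSet ∈ LA ∅ D.κ := ord_mem_Lh (ZFSet.isTransitive_empty) hl
  have hp : pp l.toZFSet D.mu D.Ef ∈ LA ∅ D.θ :=
    tm_pp.1 _ kθ (cons l.toZFSet (cons D.mu fun _ => D.Ef))
      (In.cons (In.cons (fun _ => hEf) hmu) hlθ)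
  have hf : (resS l.toZFSet fun i => app D.mu i) ∈ LA ∅ D.θ :=
    tm_mu.1 _ kθ (cons l.toZFSet fun _ => D.mu) (In.cons (fun _ => hmu) hlθ)
  obtain ⟨η, hη, hηb⟩ := g.regκ _ hlκ _ hf (isFunc_resS _ _ _ fun x hx => by
    obtain ⟨i, hi, rfl⟩ := ord_of_mem hx
    rw [hD.sz.muA i (hi.trans hl)]
    exact Ordinal.toZFSet_mem_toZFSet_iff.2 (hD.sz.μκ i (hi.trans hl)))
  have hμη : ∀ i < l, D.μ i < η := by
    intro i hi
    have h1 := hηb i.toZFSet (Ordinal.toZFSet_mem_toZFSet_iff.2 hi)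
    rw [app_resS (Ordinal.toZFSet_mem_toZFSet_iff.2 hi), hD.sz.muA i (hi.trans hl)] at h1
    exact Ordinal.toZFSet_mem_toZFSet_iff.1 h1
  refine ⟨?_, η, hη, hμη⟩
  have hηκ : η.toZFSet ∈ LA ∅ D.κ := ord_mem_Lh (ZFSet.isTransitive_empty) hη
  obtain ⟨ρ, hρ, hρb⟩ := g.powκ _ hηκ
  have hρκ : LA ∅ ρ ∈ LA ∅ D.κ := Lh_mem hρ
  have hy1 : ZFSet.prod η.toZFSet (LA ∅ ρ) ∈ LA ∅ D.κ :=
    (Tm.prod (Tm.var 0) (Tm.var 1)).1 _ g.zκ (cons η.toZFSet fun _ => LA ∅ ρ)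
      (In.cons (fun _ => hρκ) hηκ)
  have hy2 : ZFSet.prod l.toZFSet (ZFSet.prod η.toZFSet (LA ∅ ρ)) ∈ LA ∅ D.κ :=
    (Tm.prod (Tm.var 0) (Tm.var 1)).1 _ g.zκ
      (cons l.toZFSet fun _ => ZFSet.prod η.toZFSet (LA ∅ ρ))
      (In.cons (fun _ => hy1) hlκ)
  refine g.subκ _ hy2 _ hp ?_
  intro z hz
  obtain ⟨x, hx, rfl⟩ := mem_imS.1 hz
  obtain ⟨i, hi, rfl⟩ := ord_of_mem hx
  have hiκ := hi.trans hl
  refine ZFSet.pair_mem_prod.2 ⟨hx, ZFSet.pair_mem_prod.2 ⟨?_, ?_⟩⟩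
  · rw [hD.sz.muA i hiκ]
    exact Ordinal.toZFSet_mem_toZFSet_iff.2 (hμη i hi)
  · refine hρb _ ?_ ?_
    · exact (Tm.app (Tm.var 0) (Tm.var 1)).1 _ kθ (cons D.Ef fun _ => i.toZFSet)
        (In.cons (fun _ => (g.ord i).2 (hiκ.trans (g.κχ.trans g.χθ))) hEf)
    · intro y hy
      obtain ⟨δ, hδ, rfl, -⟩ := (hD.eA i hiκ y).1 hy
      exact Ordinal.toZFSet_mem_toZFSet_iff.2 (hδ.trans (hμη i hi))

end QH74

open QH74 in
theorem pf_QH (hM1 : F_M1) (hM3 : F_M3) (hM4 : F_M4) (hQA : T_QA) (hQB : T_QB) (hQD : T_QD)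
    (hQF : T_QF) (hQG : T_QG) (hDX : T_DX) (hGH : T_GH) : T_QH := by
  intro D G β hD hG hβ l hl
  obtain ⟨-, zfcm, ordB, MB, -, inac, -, -⟩ := hM1 D G β hD hG hβ
  obtain ⟨vk, NB, zfcN, ordN, LN, -⟩ := hQA D G β hD hG hβ
  obtain ⟨LaN, -, -, -, LLa⟩ := hQB _ _ _ zfcm inac vk
  obtain ⟨dmono, dtr, dlim, dsucc, -, -⟩ := hDX (· ∈ D.N G β)
  have g := hD.grd
  have hκlim : IsSuccLimit D.κ := ((hGH D hD).2.2 D.κ g.zκ).2.1
  have zN : ZFm (· ∈ D.N G β) := zfcN.toZFCm.toZFm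
  obtain ⟨hp, η, hη, hμη⟩ := pp_mem hD hl
  set p : V := pp l.toZFSet D.mu D.Ef with hpd
  have inN : ∀ x ∈ D.B G β, ∀ y ∈ D.N G β, x ⊆ y → x ∈ D.N G β := by
    intro x hx y hy hxy
    exact (vk x).2 ⟨hx, (ZFSet.rank_mono hxy).trans_lt ((vk y).1 hy).2⟩
  -- the level
  obtain ⟨ξ1, hξ1, hpξ⟩ := dlim D.κ hκlim p (LLa p hp)
  obtain ⟨ξ2, hξ2, hηξ⟩ := dlim D.κ hκlim η.toZFSet
    (LLa _ (ord_mem_Lh (ZFSet.isTransitive_empty) hη))
  obtain ⟨ξ3, hξ3, hlξ⟩ := dlim D.κ hκlim l.toZFSet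
    (LLa _ (ord_mem_Lh (ZFSet.isTransitive_empty) hl))
  set ξ : Ordinal.{0} := max ξ1 (max ξ2 ξ3) with hξd
  have hξ : ξ < D.κ := max_lt hξ1 (max_lt hξ2 hξ3)
  set A : V := La (· ∈ D.N G β) ξ with hAd
  have hpA : p ∈ A := dmono _ _ (le_max_left _ _) hpξ
  have hηA : η.toZFSet ∈ A := dmono _ _ ((le_max_left _ _).trans (le_max_right _ _)) hηξ
  have hlA : l.toZFSet ∈ A := dmono _ _ ((le_max_right _ _).trans (le_max_right _ _)) hlξ
  have hAtr : A.IsTransitive := dtr ξ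
  have hAN : A ∈ D.N G β := LaN ξ hξ
  have hAB : A ∈ D.B G β := ((vk A).1 hAN).1
  have hiA : ∀ i < l, i.toZFSet ∈ A := fun i hi =>
    hAtr _ hlA (Ordinal.toZFSet_mem_toZFSet_iff.2 hi)
  have hμA : ∀ i < l, (D.μ i).toZFSet ⊆ A := fun i hi =>
    hAtr _ (hAtr _ hηA (Ordinal.toZFSet_mem_toZFSet_iff.2 (hμη i hi)))
  obtain ⟨φ, hφ⟩ := hQG
  have hpm : ∀ i m e : V, ZFSet.pair i (ZFSet.pair m e) ∈ p ↔
      i ∈ l.toZFSet ∧ m = app D.mu i ∧ e = app D.Ef i := by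
    intro i m e
    rw [hpd]
    unfold pp
    rw [mem_imS]
    constructor
    · rintro ⟨x, hx, he⟩
      obtain ⟨e1, e2⟩ := ZFSet.pair_inj.1 he
      obtain ⟨e3, e4⟩ := ZFSet.pair_inj.1 e2
      subst e1
      exact ⟨hx, e3.symm, e4.symm⟩
    · rintro ⟨hi, rfl, rfl⟩
      exact ⟨i, hi, rfl⟩
  have hdm : ∀ i : V, i ∈ dm p ↔ i ∈ l.toZFSet := by
    intro i
    rw [mem_dm]
    constructor
    · rintro ⟨y, hy⟩
      rw [hpd] at hy
      unfold pp at hy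
      obtain ⟨x, hx, he⟩ := mem_imS.1 hy
      obtain ⟨e1, -⟩ := ZFSet.pair_inj.1 he
      rw [← e1]
      exact hx
    · intro hi
      exact ⟨_, (hpm i _ _).2 ⟨hi, rfl, rfl⟩⟩
  have key : D.A G β ∩ l.toZFSet = A.sep fun z => AaSat (· ∈ D.N G β) A φ
      (cons z fun j => (List.replicate (bd φ) p).getD j z) fun _ => ∅ := by
    ext x
    rw [ZFSet.mem_inter, ZFSet.mem_sep]
    have hcg : AaSat (· ∈ D.N G β) A φ
        (cons x fun j => (List.replicate (bd φ) p).getD j x) (fun _ => ∅) ↔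
        AaSat (· ∈ D.N G β) A φ (cons x fun _ => p) (fun _ => ∅) := by
      refine sat_congr _ _ _ _ _ _ fun i hi => ?_
      cases i with
      | zero => rfl
      | succ n =>
        show (List.replicate (bd φ) p).getD n x = p
        have hn : n < (List.replicate (bd φ) p).length := by
          rw [List.length_replicate]
          omega
        rw [List.getD_eq_getElem _ _ hn, List.getElem_replicate]
    constructor
    · rintro ⟨hxA, hxl⟩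
      obtain ⟨i, hi, rfl⟩ := ord_of_mem hxl
      have hiκ := hi.trans hl
      refine ⟨hiA i hi, hcg.2 ((hφ _ A p _ hAtr hpA (hiA i hi)).2 ⟨(hdm _).2 hxl, ?_⟩)⟩
      obtain ⟨hCB, hclub, hdis⟩ := hM3 D G β i hD hG hβ hiκ hxA
      have hμN : (D.μ i).toZFSet ∈ D.N G β := (ordN _).2 (hD.sz.μκ i hiκ)
      have hCN := inN _ hCB _ hμN hclub.sub
      obtain ⟨F, hF, hFA, hFc⟩ := hQD (· ∈ D.N G β) A _ (D.μ i) zN hAN hCN hAtr (hμA i hi)
        ⟨_, hpA⟩ hclub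
      refine ⟨F, hF, hFA, fun z hz _ hzA hcl => ?_⟩
      rintro ⟨m, e, δ, hme, hδ, hsp⟩
      obtain ⟨-, rfl, rfl⟩ := (hpm _ _ _).1 hme
      rw [hD.sz.muA i hiκ] at hsp
      obtain ⟨δ', hδ', rfl, hE⟩ := (hD.eA i hiκ δ).1 hδ
      have hδ0 : δ' ≠ 0 := by
        rintro rfl
        exact absurd hE.gt not_lt_zero
      exact hdis δ' hδ' (hFc z hzA hcl δ' hδ' hδ0 hsp) hE
    · rintro ⟨hxA, hs⟩
      obtain ⟨hd, F, hF, hFA, hFz⟩ := (hφ _ A p x hAtr hpA hxA).1 (hcg.1 hs)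
      have hxl := (hdm x).1 hd
      refine ⟨?_, hxl⟩
      obtain ⟨i, hi, rfl⟩ := ord_of_mem hxl
      have hiκ := hi.trans hl
      by_contra hna
      obtain ⟨h4a, h4b⟩ := hM4 D G β i hD hG hβ hiκ
      obtain ⟨gd, gM, glim, -, -⟩ := (hGH D hD).1 i hiκ
      have hFB : F ∈ D.B G β := ((vk F).1 hF).1
      obtain ⟨z, hzB, hzc, hzA, hcl, δ, hδ, hE, hsp⟩ := hQF (· ∈ D.B G β) A (LA ∅ (D.γ i))
        (D.μ i) (InE D.κ (D.γ i)) zfcm hAB
        ((ordB _).2 ((hD.sz.μκ i hiκ).trans (g.κχ.trans g.χθ))) hAtr (hμA i hi) (MB _ gM) gd glim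
        (fun δ hδ => by
          rcases hD.sz.sm i hiκ δ hδ with h | ⟨f, hf, ho⟩
          · exact Or.inl h
          · exact Or.inr ⟨f, MB _ hf, ho⟩)
        (fun x hx hsm hxμ => h4b x hx hsm hxμ) (fun S hS hcS => h4a hna S hS hcS)
        (fun δ hE hδ => by
          obtain ⟨f, hf, h1, h2⟩ := hE.cof
          exact ⟨f, ((vk f).1 (LN f hf)).1, h1, h2⟩) F hFB hFA
      have hzN : z ∈ D.N G β := inN _ hzB _ hAN hzA
      have hzc' : Ctbl (· ∈ D.N G β) z := by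
        rcases hzc with h | ⟨f, hf, ho⟩
        · exact Or.inl h
        · refine Or.inr ⟨f, inN f hf (ZFSet.prod om z) ?_ ho.1.1, ho⟩
          exact (Tm.prod (Tm.var 0) (Tm.var 1)).1 _ zN (cons om fun _ => z)
            (In.cons (fun _ => hzN) zN.inf)
      refine hFz z hzN hzc' hzA hcl ⟨_, _, δ.toZFSet, (hpm _ _ _).2 ⟨hxl, rfl, rfl⟩, ?_, ?_⟩
      · exact (hD.eA i hiκ _).2 ⟨δ, hδ, rfl, hE⟩
      · rw [hD.sz.muA i hiκ]
        exact hsp
  rw [key]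
  refine dmono (succ ξ) D.κ (Order.succ_le_of_lt hξ) ?_
  rw [dsucc]
  unfold DefA
  rw [ZFSet.mem_sep, ZFSet.mem_powerset]
  refine ⟨fun z hz => (ZFSet.mem_sep.1 hz).1, φ, List.replicate (bd φ) p, ?_, rfl⟩
  intro q hq
  rw [List.eq_of_mem_replicate hq]
  exact hpA

end CAA
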